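import Pool.Agent.G02.Stmts

/-!
# Squad G02, row REA: the real place
-/

set_option autoImplicit false

namespace Pool.Agent.G02.H1

/-- REA -/
theorem rea : ReaStmt := by
  intro a b d M e N B h hd hb
  have h1 := h.eq
  have h2 := h.hb
  have hB : B < 0 := by
    by_contra hcon
    have h3 : d * B ≤ 0 := mul_nonpos_of_nonpos_of_nonneg hd.le (not_lt.1 hcon)
    linarith
  have hM2 : 0 < M ^ 2 := by
    have := h.m0
    positivity
  have he2 : 0 < e ^ 2 := by
    have := h.e0
    positivity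
  have hM4 : 0 < M ^ 4 := by
    have := h.m0
    positivity
  have he4 : 0 < e ^ 4 := by
    have := h.e0
    positivity
  constructor
  · have h3 : 0 < a * (M ^ 2 * e ^ 2) := by
      have h4 : d * M ^ 4 < 0 := mul_neg_of_neg_of_pos hd hM4
      have h5 : B * e ^ 4 < 0 := mul_neg_of_neg_of_pos hB he4
      have h6 : 0 ≤ N ^ 2 := sq_nonneg N
      have h7 : a * (M ^ 2 * e ^ 2) = N ^ 2 - d * M ^ 4 - B * e ^ 4 := by rw [h1]; ring
      rw [h7]
      linarith
    exact (mul_pos_iff_of_pos_right (mul_pos hM2 he2)).1 h3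
  · have h3 : 0 ≤ (a ^ 2 - 4 * b) * e ^ 4 := by
      have h4 : (a ^ 2 - 4 * b) * e ^ 4 = (2 * d * M ^ 2 + a * e ^ 2) ^ 2 - 4 * d * N ^ 2 := by
        rw [h1, h2]
        ring
      have h5 : d * N ^ 2 ≤ 0 := mul_nonpos_of_nonpos_of_nonneg hd.le (sq_nonneg N)
      rw [h4]
      have h6 := sq_nonneg (2 * d * M ^ 2 + a * e ^ 2)
      linarith
    exact nonneg_of_mul_nonneg_left h3 he4

end Pool.Agent.G02.H1
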